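import Pool.Agent.helper14.AU.Spec

/-!
# Module PS of project au: soundness of the construction
-/

set_option autoImplicit false

namespace Pool.Agent.helper14.AU

open N68a2faeb N793a5b8e Pool.Agent.helper56.SGE Pool.Agent.helper56.SGE.QSys

/-- first homogeneous coordinate -/
noncomputable def PS_g1 (O A B I p : Pt) : ℝ := dt O p B / dt O I B
/-- second homogeneous coordinate -/
noncomputable def PS_g2 (O A B I p : Pt) : ℝ := dt O A p / dt O A I
/-- third homogeneous coordinate -/
noncomputable def PS_g3 (O A B I p : Pt) : ℝ := dt p A B / dt I A B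

lemma PS_key (O A B p q r : Pt) :
    dt O p B * (dt O A q * dt r A B - dt q A B * dt O A r)
      - dt O A p * (dt O q B * dt r A B - dt q A B * dt O r B)
      + dt p A B * (dt O q B * dt O A r - dt O A q * dt O r B) = dt p q r * dt O A B ^ 2 := by
  unfold dt
  ring

lemma PS_col (O A B I p q r : Pt) (h : dt p q r = 0) :
    PS_g1 O A B I p * (PS_g2 O A B I q * PS_g3 O A B I r - PS_g3 O A B I q * PS_g2 O A B I r)
      - PS_g2 O A B I p * (PS_g1 O A B I q * PS_g3 O A B I r - PS_g3 O A B I q * PS_g1 O A B I r)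
      + PS_g3 O A B I p * (PS_g1 O A B I q * PS_g2 O A B I r - PS_g2 O A B I q * PS_g1 O A B I r)
      = 0 := by
  have key := PS_key O A B p q r
  have e : PS_g1 O A B I p * (PS_g2 O A B I q * PS_g3 O A B I r - PS_g3 O A B I q * PS_g2 O A B I r)
      - PS_g2 O A B I p * (PS_g1 O A B I q * PS_g3 O A B I r - PS_g3 O A B I q * PS_g1 O A B I r)
      + PS_g3 O A B I p * (PS_g1 O A B I q * PS_g2 O A B I r - PS_g2 O A B I q * PS_g1 O A B I r)
      = (dt O p B * (dt O A q * dt r A B - dt q A B * dt O A r)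
      - dt O A p * (dt O q B * dt r A B - dt q A B * dt O r B)
      + dt p A B * (dt O q B * dt O A r - dt O A q * dt O r B)) /
        (dt O I B * dt O A I * dt I A B) := by
    unfold PS_g1 PS_g2 PS_g3
    ring
  rw [e, key, h]
  simp

lemma PS_sum (O A B p : Pt) : dt O p B + dt O A p + dt p A B = dt O A B := by
  unfold dt
  ring

lemma PS_pos1 (O A B p : Pt) : dt O A B * (p.1 - O.1) =
    dt O p B * (A.1 - O.1) + dt O A p * (B.1 - O.1) := by
  unfold dt
  ring

lemma PS_pos2 (O A B p : Pt) : dt O A B * (p.2 - O.2) =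
    dt O p B * (A.2 - O.2) + dt O A p * (B.2 - O.2) := by
  unfold dt
  ring

/-- the base: the four points and the coordinates -/
structure PS_Base (O A B I : Pt) (g1 g2 g3 : Pt → ℝ) : Prop where
  col : ∀ p q r, dt p q r = 0 → g1 p * (g2 q * g3 r - g3 q * g2 r)
    - g2 p * (g1 q * g3 r - g3 q * g1 r) + g3 p * (g1 q * g2 r - g2 q * g1 r) = 0
  O1 : g1 O = 0
  O2 : g2 O = 0
  O3 : g3 O ≠ 0
  A1 : g1 A ≠ 0
  A2 : g2 A = 0
  A3 : g3 A = 0
  B1 : g1 B = 0
  B2 : g2 B ≠ 0
  B3 : g3 B = 0
  I1 : g1 I = 1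
  I2 : g2 I = 1
  I3 : g3 I = 1
  ne : ∀ p, g1 p = 0 → g2 p = 0 → g3 p ≠ 0
  eqB : ∀ p, g1 p = 0 → g3 p = 0 → p = B
  eqA : ∀ p, g2 p = 0 → g3 p = 0 → p = A

lemma PS_base (O A B I : Pt) (hD : dt O A B ≠ 0) (h1 : dt O I B ≠ 0) (h2 : dt O A I ≠ 0)
    (h3 : dt I A B ≠ 0) :
    PS_Base O A B I (PS_g1 O A B I) (PS_g2 O A B I) (PS_g3 O A B I) where
  col := fun p q r h => PS_col O A B I p q r h
  O1 := by simp [PS_g1, dt]
  O2 := by
    have : dt O A O = 0 := by simp [dt]
    simp [PS_g2, this]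
  O3 := div_ne_zero hD h3
  A1 := div_ne_zero hD h1
  A2 := by
    have : dt O A A = 0 := by unfold dt; ring
    simp [PS_g2, this]
  A3 := by
    have : dt A A B = 0 := by unfold dt; ring
    simp [PS_g3, this]
  B1 := by
    have : dt O B B = 0 := by unfold dt; ring
    simp [PS_g1, this]
  B2 := div_ne_zero hD h2
  B3 := by
    have : dt B A B = 0 := by unfold dt; ring
    simp [PS_g3, this]
  I1 := div_self h1
  I2 := div_self h2
  I3 := div_self h3
  ne := by
    intro p e1 e2
    have f1 : dt O p B = 0 := by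
      rcases div_eq_zero_iff.1 e1 with h | h
      · exact h
      · exact absurd h h1
    have f2 : dt O A p = 0 := by
      rcases div_eq_zero_iff.1 e2 with h | h
      · exact h
      · exact absurd h h2
    have := PS_sum O A B p
    rw [f1, f2] at this
    refine div_ne_zero ?_ h3
    intro h
    apply hD
    rw [← this, h]
    ring
  eqB := by
    intro p e1 e3
    have f1 : dt O p B = 0 := by
      rcases div_eq_zero_iff.1 e1 with h | h
      · exact h
      · exact absurd h h1
    have f3 : dt p A B = 0 := by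
      rcases div_eq_zero_iff.1 e3 with h | h
      · exact h
      · exact absurd h h3
    have hs := PS_sum O A B p
    have a1 := PS_pos1 O A B p
    have a2 := PS_pos2 O A B p
    have f2 : dt O A p = dt O A B := by linarith
    rw [f1, f2] at a1 a2
    have b1 : p.1 - O.1 = B.1 - O.1 := mul_left_cancel₀ hD (by linarith)
    have b2 : p.2 - O.2 = B.2 - O.2 := mul_left_cancel₀ hD (by linarith)
    exact Prod.ext (by linarith) (by linarith)
  eqA := by
    intro p e2 e3
    have f2 : dt O A p = 0 := by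
      rcases div_eq_zero_iff.1 e2 with h | h
      · exact h
      · exact absurd h h2
    have f3 : dt p A B = 0 := by
      rcases div_eq_zero_iff.1 e3 with h | h
      · exact h
      · exact absurd h h3
    have hs := PS_sum O A B p
    have a1 := PS_pos1 O A B p
    have a2 := PS_pos2 O A B p
    have f1 : dt O p B = dt O A B := by linarith
    rw [f1, f2] at a1 a2
    have b1 : p.1 - O.1 = A.1 - O.1 := mul_left_cancel₀ hD (by linarith)
    have b2 : p.2 - O.2 = A.2 - O.2 := mul_left_cancel₀ hD (by linarith)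
    exact Prod.ext (by linarith) (by linarith)

/-! ### the items -/

lemma PS_item_base (Q : QSys) (M : ℕ → Prop) (g : ℕ) (h : g < 11) : itemOf Q M g = baseIt g := by
  simp [itemOf, h]

open Classical in
lemma PS_item_blk (Q : QSys) (M : ℕ → Prop) (r c : ℕ) (hr : r < nR Q) (hc : c < 13) :
    itemOf Q M (11 + 13 * r + c) = blkIt (decide (M r)) r c := by
  have h1 : ¬ (11 + 13 * r + c < 11) := by omega
  have h2 : 11 + 13 * r + c < 11 + 13 * nR Q := by omega
  have h3 : (11 + 13 * r + c - 11) / 13 = r := by omega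
  have h4 : (11 + 13 * r + c - 11) % 13 = c := by omega
  simp only [itemOf, h1, h2, h3, h4, if_true, if_false]

lemma PS_item_eq (Q : QSys) (M : ℕ → Prop) (k c : ℕ) (hc : c < 3) :
    itemOf Q M (11 + 13 * nR Q + 3 * k + c) = eqIt Q (4 + 5 * nR Q + k) k c := by
  have h1 : ¬ (11 + 13 * nR Q + 3 * k + c < 11) := by omega
  have h2 : ¬ (11 + 13 * nR Q + 3 * k + c < 11 + 13 * nR Q) := by omega
  have h3 : (11 + 13 * nR Q + 3 * k + c - 11 - 13 * nR Q) / 3 = k := by omega
  have h4 : (11 + 13 * nR Q + 3 * k + c - 11 - 13 * nR Q) % 3 = c := by omega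
  simp only [itemOf, h1, h2, h3, h4, if_false]

/-- what the items of a reference give -/
structure PS_Blk (P : ℕ → Pt) (g1 g2 g3 : Pt → ℝ) (r : ℕ) : Prop where
  n1 : g1 (P (nN r)) = 0
  n3 : g3 (P (nN r)) ≠ 0
  x2 : g2 (P (nX r)) = 0
  x3 : g3 (P (nX r)) ≠ 0
  s3 : g3 (P (nS r)) = 0
  s1 : g1 (P (nS r)) ≠ 0

section

variable {P : ℕ → Pt} {g1 g2 g3 : Pt → ℝ}

lemma PS_colA (hb : PS_Base (P 0) (P 1) (P 2) (P 3) g1 g2 g3) {q m : Pt}
    (h : dt (P 1) q m = 0) : g2 q * g3 m = g3 q * g2 m := by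
  have := hb.col _ _ _ h
  rw [hb.A2, hb.A3] at this
  have h2 : g1 (P 1) * (g2 q * g3 m - g3 q * g2 m) = 0 := by linarith
  rcases mul_eq_zero.1 h2 with h3 | h3
  · exact absurd h3 hb.A1
  · linarith

lemma PS_colB (hb : PS_Base (P 0) (P 1) (P 2) (P 3) g1 g2 g3) {q m : Pt}
    (h : dt (P 2) q m = 0) : g1 q * g3 m = g3 q * g1 m := by
  have := hb.col _ _ _ h
  rw [hb.B1, hb.B3] at this
  have h2 : g2 (P 2) * (g1 q * g3 m - g3 q * g1 m) = 0 := by linarith
  rcases mul_eq_zero.1 h2 with h3 | h3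
  · exact absurd h3 hb.B2
  · linarith

lemma PS_colO (hb : PS_Base (P 0) (P 1) (P 2) (P 3) g1 g2 g3) {q m : Pt}
    (h : dt (P 0) q m = 0) : g1 q * g2 m = g2 q * g1 m := by
  have := hb.col _ _ _ h
  rw [hb.O1, hb.O2] at this
  have h2 : g3 (P 0) * (g1 q * g2 m - g2 q * g1 m) = 0 := by linarith
  rcases mul_eq_zero.1 h2 with h3 | h3
  · exact absurd h3 hb.O3
  · linarith

end

/-- the area of a triangle two of whose vertices are on the line `O A` -/
lemma PS_meas (O A p q F : Pt) (s t : ℝ) (hp1 : p.1 = O.1 + s * (A.1 - O.1))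
    (hp2 : p.2 = O.2 + s * (A.2 - O.2)) (hq1 : q.1 = O.1 + t * (A.1 - O.1))
    (hq2 : q.2 = O.2 + t * (A.2 - O.2)) : area p q F = |t - s| * |dt O A F| / 2 := by
  unfold area
  rw [← abs_mul]
  congr 2
  unfold dt
  rw [hp1, hp2, hq1, hq2]
  ring

theorem PS : PS_stmt := by
  intro Q M hWF hM α β P hN
  classical
  -- the base
  have base : ∀ g < 11, Need P (α g) (β g) (baseIt g) := by
    intro g hg
    have := hN g (by unfold nG nR; omega)
    rwa [PS_item_base Q M g hg] at this
  have blk : ∀ r < nR Q, ∀ c < 13,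
      Need P (α (11 + 13 * r + c)) (β (11 + 13 * r + c)) (blkIt (decide (M r)) r c) := by
    intro r hr c hc
    have := hN (11 + 13 * r + c) (by unfold nG; omega)
    rwa [PS_item_blk Q M r c hr hc] at this
  have eqn : ∀ k < Q.m, ∀ c < 3,
      Need P (α (11 + 13 * nR Q + 3 * k + c)) (β (11 + 13 * nR Q + 3 * k + c))
        (eqIt Q (4 + 5 * nR Q + k) k c) := by
    intro k hk c hc
    have := hN (11 + 13 * nR Q + 3 * k + c) (by unfold nG; omega)
    rwa [PS_item_eq Q M k c hc] at this
  have n01 : P 0 ≠ P 1 := by simpa [Need, baseIt] using base 0 (by norm_num)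
  have n02 : P 0 ≠ P 2 := by simpa [Need, baseIt] using base 1 (by norm_num)
  have n03 : P 0 ≠ P 3 := by simpa [Need, baseIt] using base 2 (by norm_num)
  have n12 : P 1 ≠ P 2 := by simpa [Need, baseIt] using base 3 (by norm_num)
  have n13 : P 1 ≠ P 3 := by simpa [Need, baseIt] using base 4 (by norm_num)
  have d012 : dt (P 0) (P 1) (P 2) ≠ 0 := by
    simpa [Need, baseIt, n01, n02] using base 5 (by norm_num)
  have d013 : dt (P 0) (P 1) (P 3) ≠ 0 := by
    simpa [Need, baseIt, n01, n03] using base 6 (by norm_num)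
  have d023 : dt (P 0) (P 2) (P 3) ≠ 0 := by
    simpa [Need, baseIt, n02, n03] using base 7 (by norm_num)
  have d123 : dt (P 1) (P 2) (P 3) ≠ 0 := by
    simpa [Need, baseIt, n12, n13] using base 8 (by norm_num)
  have c9 : dt (P 0) (P 1) (P (nN 0)) = 0 := by
    simpa [Need, baseIt, n01] using base 9 (by norm_num)
  have c10 : dt (P 1) (P 3) (P (nN 1)) = 0 := by
    simpa [Need, baseIt, n13] using base 10 (by norm_num)
  have d032 : dt (P 0) (P 3) (P 2) ≠ 0 := by
    intro h
    apply d023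
    unfold dt at h ⊢
    linarith
  have d312 : dt (P 3) (P 1) (P 2) ≠ 0 := by
    intro h
    apply d123
    unfold dt at h ⊢
    linarith
  have hb := PS_base (P 0) (P 1) (P 2) (P 3) d012 d032 d013 d312
  set g1 := PS_g1 (P 0) (P 1) (P 2) (P 3) with hg1
  set g2 := PS_g2 (P 0) (P 1) (P 2) (P 3) with hg2
  set g3 := PS_g3 (P 0) (P 1) (P 2) (P 3) with hg3
  -- the references
  have hB : ∀ r < nR Q, PS_Blk P g1 g2 g3 r := by
    intro r hr
    have i0 : dt (P 0) (P 2) (P (nN r)) = 0 := by
      simpa [Need, blkIt, n02] using blk r hr 0 (by norm_num)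
    have i1 : P 2 ≠ P (nN r) := by
      simpa [Need, blkIt] using blk r hr 1 (by norm_num)
    have i2 : dt (P 0) (P 1) (P (nX r)) = 0 := by
      simpa [Need, blkIt, n01] using blk r hr 2 (by norm_num)
    have i3 : P 1 ≠ P (nX r) := by
      simpa [Need, blkIt] using blk r hr 3 (by norm_num)
    have i4 : dt (P 1) (P 2) (P (nS r)) = 0 := by
      simpa [Need, blkIt, n12] using blk r hr 4 (by norm_num)
    have i5 : P 2 ≠ P (nS r) := by
      simpa [Need, blkIt] using blk r hr 5 (by norm_num)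
    have j0 := PS_colO hb i0
    rw [hb.B1] at j0
    have n1 : g1 (P (nN r)) = 0 := by
      have : g2 (P 2) * g1 (P (nN r)) = 0 := by linarith
      rcases mul_eq_zero.1 this with h | h
      · exact absurd h hb.B2
      · exact h
    have j2 := PS_colO hb i2
    rw [hb.A2] at j2
    have x2 : g2 (P (nX r)) = 0 := by
      have : g1 (P 1) * g2 (P (nX r)) = 0 := by linarith
      rcases mul_eq_zero.1 this with h | h
      · exact absurd h hb.A1
      · exact h
    have j4 := PS_colA hb i4
    rw [hb.B3] at j4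
    have s3 : g3 (P (nS r)) = 0 := by
      have : g2 (P 2) * g3 (P (nS r)) = 0 := by linarith
      rcases mul_eq_zero.1 this with h | h
      · exact absurd h hb.B2
      · exact h
    exact ⟨n1, fun h => i1 (hb.eqB _ n1 h).symm, x2, fun h => i3 (hb.eqA _ x2 h).symm, s3,
      fun h => i5 (hb.eqB _ h s3).symm⟩
  -- the values
  obtain ⟨ζ, hζ⟩ : ∃ ζ : ℕ → ℝ, ∀ r, ζ r = g2 (P (nN r)) / g3 (P (nN r)) := ⟨_, fun _ => rfl⟩
  have hζ' : ∀ r < nR Q, g2 (P (nN r)) = ζ r * g3 (P (nN r)) := by
    intro r hr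
    rw [hζ, div_mul_cancel₀ _ (hB r hr).n3]
  have colN : ∀ r < nR Q, ∀ m : Pt, dt (P 1) (P (nN r)) m = 0 → g2 m = ζ r * g3 m := by
    intro r hr m h
    have := PS_colA hb h
    rw [hζ' r hr] at this
    have h3 := (hB r hr).n3
    have : g3 (P (nN r)) * (g2 m - ζ r * g3 m) = 0 := by linarith
    rcases mul_eq_zero.1 this with h | h
    · exact absurd h h3
    · linarith
  have hne1 : ∀ r < nR Q, P 1 ≠ P (nN r) := by
    intro r hr h
    have := (hB r hr).n3
    rw [← h] at this
    exact this hb.A3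
  have hne2 : ∀ r < nR Q, P 2 ≠ P (nX r) := by
    intro r hr h
    have := (hB r hr).x3
    rw [← h] at this
    exact this hb.B3
  have hne0 : ∀ r < nR Q, P 0 ≠ P (nS r) := by
    intro r hr h
    have := (hB r hr).s3
    rw [← h] at this
    exact hb.O3 this
  have h0R : 0 < nR Q := by unfold nR; omega
  have h1R : 1 < nR Q := by unfold nR; omega
  have ζ0 : ζ 0 = 0 := by
    have := PS_colO hb c9
    rw [hb.A2] at this
    have h2 : g1 (P 1) * g2 (P (nN 0)) = 0 := by linarith
    rcases mul_eq_zero.1 h2 with h | h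
    · exact absurd h hb.A1
    · rw [hζ, h, zero_div]
  have ζ1 : ζ 1 = 1 := by
    have := PS_colA hb c10
    rw [hb.I2, hb.I3, one_mul, one_mul] at this
    rw [hζ, ← this]
    exact div_self (hB 1 h1R).n3
  -- the points nD
  have hX : ∀ r < nR Q, g1 (P (nX r)) = ζ r * g3 (P (nX r)) := by
    intro r hr
    have i9 : dt (P 2) (P (nX r)) (P (nD r)) = 0 := by
      simpa [Need, blkIt, hne2 r hr] using blk r hr 9 (by norm_num)
    have i10 : dt (P 1) (P (nN r)) (P (nD r)) = 0 := by
      simpa [Need, blkIt, hne1 r hr] using blk r hr 10 (by norm_num)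
    have i11 : dt (P 0) (P 3) (P (nD r)) = 0 := by
      simpa [Need, blkIt, n03] using blk r hr 11 (by norm_num)
    have j9 := PS_colB hb i9
    have j10 := colN r hr _ i10
    have j11 := PS_colO hb i11
    rw [hb.I1, hb.I2, one_mul, one_mul] at j11
    have hx3 := (hB r hr).x3
    have hd3 : g3 (P (nD r)) ≠ 0 := by
      intro h
      rw [h, mul_zero] at j10
      rw [j10] at j11
      exact hb.ne _ j11.symm j10 h
    rw [← j11, j10] at j9
    have : g3 (P (nD r)) * (g1 (P (nX r)) - ζ r * g3 (P (nX r))) = 0 := by linarith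
    rcases mul_eq_zero.1 this with h | h
    · exact absurd h hd3
    · linarith
  have colX : ∀ r < nR Q, ∀ m : Pt, dt (P 2) (P (nX r)) m = 0 → g1 m = ζ r * g3 m := by
    intro r hr m h
    have := PS_colB hb h
    rw [hX r hr] at this
    have h3 := (hB r hr).x3
    have : g3 (P (nX r)) * (g1 m - ζ r * g3 m) = 0 := by linarith
    rcases mul_eq_zero.1 this with h | h
    · exact absurd h h3
    · linarith
  -- the points nM
  have hS : ∀ r < nR Q, g2 (P (nS r)) = ζ r * g1 (P (nS r)) := by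
    intro r hr
    have i6 : dt (P 2) (P (nX 1)) (P (nM r)) = 0 := by
      simpa [Need, blkIt, hne2 1 h1R] using blk r hr 6 (by norm_num)
    have i7 : dt (P 1) (P (nN r)) (P (nM r)) = 0 := by
      simpa [Need, blkIt, hne1 r hr] using blk r hr 7 (by norm_num)
    have i8 : dt (P 0) (P (nS r)) (P (nM r)) = 0 := by
      simpa [Need, blkIt, hne0 r hr] using blk r hr 8 (by norm_num)
    have j6 := colX 1 h1R _ i6
    have j7 := colN r hr _ i7
    have j8 := PS_colO hb i8
    rw [ζ1, one_mul] at j6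
    have hm3 : g3 (P (nM r)) ≠ 0 := by
      intro h
      rw [h, mul_zero] at j7
      rw [h] at j6
      exact hb.ne _ j6 j7 h
    rw [j6, j7] at j8
    have : g3 (P (nM r)) * (g2 (P (nS r)) - ζ r * g1 (P (nS r))) = 0 := by linarith
    rcases mul_eq_zero.1 this with h | h
    · exact absurd h hm3
    · linarith
  have hrv : ∀ r, rval (fun v => ζ (v + 2)) r = ζ r := by
    intro r
    match r with
    | 0 => exact ζ0.symm
    | 1 => exact ζ1.symm
    | v + 2 => rfl
  -- the scale
  set D := dt (P 0) (P 1) (P 2) with hDdef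
  set iA := dt (P 0) (P 3) (P 2) with hiA
  set iO := dt (P 3) (P 1) (P 2) with hiO
  -- position of the points nX
  have posX : ∀ r < nR Q, ∃ s : ℝ, s * (iO + ζ r * iA) = ζ r * iA ∧
      (P (nX r)).1 = (P 0).1 + s * ((P 1).1 - (P 0).1) ∧
      (P (nX r)).2 = (P 0).2 + s * ((P 1).2 - (P 0).2) := by
    intro r hr
    have a1 := PS_pos1 (P 0) (P 1) (P 2) (P (nX r))
    have a2 := PS_pos2 (P 0) (P 1) (P 2) (P (nX r))
    have hs := PS_sum (P 0) (P 1) (P 2) (P (nX r))
    have f2 : dt (P 0) (P 1) (P (nX r)) = 0 := by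
      have := (hB r hr).x2
      rcases div_eq_zero_iff.1 this with h | h
      · exact h
      · exact absurd h d013
    have hx := hX r hr
    have hx' : dt (P 0) (P (nX r)) (P 2) / iA = ζ r * (dt (P (nX r)) (P 1) (P 2) / iO) := hx
    rw [← hDdef] at a1 a2 hs
    rw [f2] at a1 a2 hs
    set H := dt (P 0) (P (nX r)) (P 2) with hH
    have hH3 : dt (P (nX r)) (P 1) (P 2) = D - H := by linarith
    rw [hH3] at hx'
    refine ⟨H / D, ?_, ?_, ?_⟩
    · have hx2 : H * iO = ζ r * (D - H) * iA := by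
        field_simp at hx'
        linarith
      field_simp
      linarith
    · field_simp
      linarith
    · field_simp
      linarith
  have hne : iO + iA ≠ 0 := by
    obtain ⟨s, h1, -, -⟩ := posX 1 h1R
    rw [ζ1, one_mul] at h1
    intro h
    rw [h, mul_zero] at h1
    exact d032 h1.symm
  refine ⟨fun v => ζ (v + 2), |iO + iA| / |iO|, by positivity, ?_, ?_⟩
  · intro k hk
    have w0 := hWF k hk 0 (by norm_num)
    have w1 := hWF k hk 1 (by norm_num)
    have w2 := hWF k hk 2 (by norm_num)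
    have w3 := hWF k hk 3 (by norm_num)
    have e0 := eqn k hk 0 (by norm_num)
    have e1 := eqn k hk 1 (by norm_num)
    have e2 := eqn k hk 2 (by norm_num)
    have hneS : P (nS (Q.ref k 0)) ≠ P (nN (Q.ref k 2)) := by
      intro h
      have h1 := (hB _ w0).s3
      rw [h] at h1
      exact (hB _ w2).n3 h1
    have f0 : dt (P 2) (P (nX (Q.ref k 1))) (P (4 + 5 * nR Q + k)) = 0 := by
      simpa [Need, eqIt, hne2 _ w1] using e0
    have f1 : dt (P 1) (P (nN (Q.ref k 3))) (P (4 + 5 * nR Q + k)) = 0 := by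
      simpa [Need, eqIt, hne1 _ w3] using e1
    have f2 : dt (P (nS (Q.ref k 0))) (P (nN (Q.ref k 2))) (P (4 + 5 * nR Q + k)) = 0 := by
      simpa [Need, eqIt, hneS] using e2
    have l0 := colX _ w1 _ f0
    have l1 := colN _ w3 _ f1
    have l2 := hb.col _ _ _ f2
    rw [(hB _ w0).s3, (hB _ w2).n1, hS _ w0, hζ' _ w2, l0, l1] at l2
    have hk3 : g3 (P (4 + 5 * nR Q + k)) ≠ 0 := by
      intro h
      rw [h, mul_zero] at l0 l1
      exact hb.ne _ l0 l1 h
    have l3 : g1 (P (nS (Q.ref k 0))) * (g3 (P (nN (Q.ref k 2))) *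
        (g3 (P (4 + 5 * nR Q + k)) * (ζ (Q.ref k 0) * ζ (Q.ref k 1) + ζ (Q.ref k 2) -
          ζ (Q.ref k 3)))) = 0 := by linarith
    rcases mul_eq_zero.1 l3 with h | h
    · exact absurd h (hB _ w0).s1
    rcases mul_eq_zero.1 h with h | h
    · exact absurd h (hB _ w2).n3
    rcases mul_eq_zero.1 h with h | h
    · exact absurd h hk3
    · simp only [E, hrv]
      exact h
  · intro r hr
    obtain ⟨-, hr2⟩ := hM r hr
    have e := blk r hr2 12 (by norm_num)
    have hr' : decide (M r) = true := by simpa using hr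
    obtain ⟨F, hF1, hF2⟩ : ∃ F : Pt, area (P (nX 0)) (P (nX r)) F = α (23 + 13 * r) ∧
        area (P (nX r)) (P (nX 1)) F = β (23 + 13 * r) := by
      have i1 : 11 + 13 * r + 12 = 23 + 13 * r := by omega
      rw [i1] at e
      simpa [Need, blkIt, hr'] using e
    obtain ⟨s0, u0, v0, w0⟩ := posX 0 h0R
    obtain ⟨s1, u1, v1, w1⟩ := posX 1 h1R
    obtain ⟨s, u, v, w⟩ := posX r hr2
    rw [ζ0] at u0
    rw [ζ1] at u1
    have hs0 : s0 = 0 := by
      have : s0 * iO = 0 := by linarith
      rcases mul_eq_zero.1 this with h | h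
      · exact h
      · exact absurd h d312
    rw [PS_meas (P 0) (P 1) _ _ F s0 s v0 w0 v w, hs0, sub_zero] at hF1
    rw [PS_meas (P 0) (P 1) _ _ F s s1 v w v1 w1] at hF2
    rw [hrv, ← hF1, ← hF2]
    set x := ζ r with hx
    have hne' : iO + x * iA ≠ 0 := by
      intro h
      rw [h, mul_zero] at u
      rw [← u, add_zero] at h
      exact d312 h
    have hs : s = x * iA / (iO + x * iA) := by
      field_simp
      linarith
    have hs1 : s1 = iA / (iO + iA) := by
      field_simp
      linarith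
    have hd : s1 - s = iA * iO * (1 - x) / ((iO + iA) * (iO + x * iA)) := by
      rw [hs, hs1, div_sub_div _ _ hne hne']
      congr 1
      ring
    rw [hd, hs]
    simp only [abs_div, abs_mul]
    have p1 : |iO| ≠ 0 := abs_ne_zero.2 d312
    have p2 : |iO + iA| ≠ 0 := abs_ne_zero.2 hne
    have p3 : |iO + x * iA| ≠ 0 := abs_ne_zero.2 hne'
    field_simp

end Pool.Agent.helper14.AU
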