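import Pool.Agent.helper14.AU.Spec
import Pool.Agent.helper14.AUT.PS

/-!
# Module IO of project au: the items are in order
-/

set_option autoImplicit false

namespace Pool.Agent.helper14.AU

open N68a2faeb N793a5b8e Pool.Agent.helper56.SGE Pool.Agent.helper56.SGE.QSys

theorem IO14 : IO_stmt := by
  intro Q M hWF hM g hg
  classical
  have hR : 2 ≤ nR Q := by unfold nR; omega
  rcases Nat.lt_or_ge g 11 with h11 | h11
  · rw [PS_item_base Q M g h11]
    interval_cases g <;> constructor <;> simp [baseIt, nN0, nN] <;> omega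
  rcases Nat.lt_or_ge g (11 + 13 * nR Q) with h13 | h13
  · obtain ⟨r, c, hr, hc, rfl⟩ : ∃ r c, r < nR Q ∧ c < 13 ∧ g = 11 + 13 * r + c :=
      ⟨(g - 11) / 13, (g - 11) % 13, by omega, by omega, by omega⟩
    rw [PS_item_blk Q M r c hr hc]
    by_cases hMr : M r
    · have h2 := (hM r hMr).1
      have hd : decide (M r) = true := by simpa using hMr
      rw [hd]
      interval_cases c <;> constructor <;> simp [blkIt, nN0, nN, nX, nS, nM, nD] <;> omega
    · have hd : decide (M r) = false := by simpa using hMr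
      rw [hd]
      interval_cases c <;> constructor <;> simp [blkIt, nN0, nN, nX, nS, nM, nD] <;> omega
  · obtain ⟨k, c, hk, hc, rfl⟩ : ∃ k c, k < Q.m ∧ c < 3 ∧ g = 11 + 13 * nR Q + 3 * k + c :=
      ⟨(g - 11 - 13 * nR Q) / 3, (g - 11 - 13 * nR Q) % 3, by unfold nG at hg; omega, by omega,
        by omega⟩
    rw [PS_item_eq Q M k c hc]
    have w0 := hWF k hk 0 (by norm_num)
    have w1 := hWF k hk 1 (by norm_num)
    have w2 := hWF k hk 2 (by norm_num)
    have w3 := hWF k hk 3 (by norm_num)
    unfold nN0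
    unfold nR
    interval_cases c <;> constructor <;> simp [eqIt, nN, nX, nS, nR] <;> omega

end Pool.Agent.helper14.AU
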