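import Pool.Agent.helper14.AU.Spec
import Pool.Agent.helper14.AUT.PS

/-!
# Module PC of project au: completeness of the construction
-/

set_option autoImplicit false

namespace Pool.Agent.helper14.AU

open N68a2faeb N793a5b8e Pool.Agent.helper56.SGE Pool.Agent.helper56.SGE.QSys

/-- the linear form -/
def PC_lam (ε δ : ℝ) (a : ℝ × ℝ × ℝ) : ℝ := ε * a.1 + δ * a.2.1 + a.2.2

/-- the affine point -/
noncomputable def PC_aff (ε δ : ℝ) (a : ℝ × ℝ × ℝ) : Pt :=
  (a.1 / PC_lam ε δ a, a.2.1 / PC_lam ε δ a)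

/-- determinant -/
def PC_det (a b c : ℝ × ℝ × ℝ) : ℝ :=
  a.1 * (b.2.1 * c.2.2 - b.2.2 * c.2.1) - a.2.1 * (b.1 * c.2.2 - b.2.2 * c.1)
    + a.2.2 * (b.1 * c.2.1 - b.2.1 * c.1)

lemma PC_dt (ε δ : ℝ) (a b c : ℝ × ℝ × ℝ) (ha : PC_lam ε δ a ≠ 0) (hb : PC_lam ε δ b ≠ 0)
    (hc : PC_lam ε δ c ≠ 0) : dt (PC_aff ε δ a) (PC_aff ε δ b) (PC_aff ε δ c) =
      PC_det a b c / (PC_lam ε δ a * PC_lam ε δ b * PC_lam ε δ c) := by
  unfold dt PC_aff
  rw [eq_div_iff (by positivity)]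
  simp only
  field_simp
  unfold PC_det PC_lam
  ring

lemma PC_ne (ε δ : ℝ) (a b : ℝ × ℝ × ℝ) (ha : PC_lam ε δ a ≠ 0) (hb : PC_lam ε δ b ≠ 0)
    (h : a.1 * b.2.1 - a.2.1 * b.1 ≠ 0 ∨ a.1 * b.2.2 - a.2.2 * b.1 ≠ 0 ∨
      a.2.1 * b.2.2 - a.2.2 * b.2.1 ≠ 0) : PC_aff ε δ a ≠ PC_aff ε δ b := by
  intro he
  have h1 : a.1 / PC_lam ε δ a = b.1 / PC_lam ε δ b := congrArg Prod.fst he
  have h2 : a.2.1 / PC_lam ε δ a = b.2.1 / PC_lam ε δ b := congrArg Prod.snd he
  rw [div_eq_div_iff ha hb] at h1 h2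
  have h3 : a.2.2 * PC_lam ε δ b = b.2.2 * PC_lam ε δ a := by
    have e : PC_lam ε δ a * PC_lam ε δ b = PC_lam ε δ b * PC_lam ε δ a := mul_comm _ _
    have e1 : (ε * a.1 + δ * a.2.1 + a.2.2) * PC_lam ε δ b =
        (ε * b.1 + δ * b.2.1 + b.2.2) * PC_lam ε δ a := e
    linear_combination e1 - ε * h1 - δ * h2
  rcases h with h | h | h
  · apply h
    have : PC_lam ε δ a * (a.1 * b.2.1 - a.2.1 * b.1) = 0 := by
      linear_combination a.2.1 * h1 - a.1 * h2
    rcases mul_eq_zero.1 this with h' | h'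
    · exact absurd h' ha
    · exact h'
  · apply h
    have : PC_lam ε δ a * (a.1 * b.2.2 - a.2.2 * b.1) = 0 := by
      linear_combination a.2.2 * h1 - a.1 * h3
    rcases mul_eq_zero.1 this with h' | h'
    · exact absurd h' ha
    · exact h'
  · apply h
    have : PC_lam ε δ a * (a.2.1 * b.2.2 - a.2.2 * b.2.1) = 0 := by
      linear_combination a.2.2 * h2 - a.2.1 * h3
    rcases mul_eq_zero.1 this with h' | h'
    · exact absurd h' ha
    · exact h'

/-- the homogeneous coordinates of the named points -/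
noncomputable def PC_vec (Q : QSys) (z : ℕ → ℝ) (n : ℕ) : ℝ × ℝ × ℝ :=
  if n = 0 then (0, 0, 1) else if n = 1 then (1, 0, 0) else if n = 2 then (0, 1, 0) else
  if n = 3 then (1, 1, 1) else
  if n < 4 + 5 * nR Q then
    (if (n - 4) % 5 = 0 then (0, rval z ((n - 4) / 5), 1) else
     if (n - 4) % 5 = 1 then (rval z ((n - 4) / 5), 0, 1) else
     if (n - 4) % 5 = 2 then (1, rval z ((n - 4) / 5), 0) else
     if (n - 4) % 5 = 3 then (1, rval z ((n - 4) / 5), 1) else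
      (rval z ((n - 4) / 5), rval z ((n - 4) / 5), 1))
  else (rval z (Q.ref (n - (4 + 5 * nR Q)) 1), rval z (Q.ref (n - (4 + 5 * nR Q)) 3), 1)

section

variable (Q : QSys) (z : ℕ → ℝ)

lemma PC_v0 : PC_vec Q z 0 = (0, 0, 1) := by simp [PC_vec]
lemma PC_v1 : PC_vec Q z 1 = (1, 0, 0) := by simp [PC_vec]
lemma PC_v2 : PC_vec Q z 2 = (0, 1, 0) := by simp [PC_vec]
lemma PC_v3 : PC_vec Q z 3 = (1, 1, 1) := by simp [PC_vec]

lemma PC_vN (r : ℕ) (hr : r < nR Q) : PC_vec Q z (nN r) = (0, rval z r, 1) := by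
  unfold nN
  have h0 : 4 + 5 * r ≠ 0 := by omega
  have h1 : 4 + 5 * r ≠ 1 := by omega
  have h2 : 4 + 5 * r ≠ 2 := by omega
  have h3 : 4 + 5 * r ≠ 3 := by omega
  have h4 : 4 + 5 * r < 4 + 5 * nR Q := by omega
  have h5 : (4 + 5 * r - 4) % 5 = 0 := by omega
  have h6 : (4 + 5 * r - 4) / 5 = r := by omega
  simp only [PC_vec, h0, h1, h2, h3, h4, h5, h6, if_true, if_false]

lemma PC_vX (r : ℕ) (hr : r < nR Q) : PC_vec Q z (nX r) = (rval z r, 0, 1) := by
  unfold nX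
  have h0 : 5 + 5 * r ≠ 0 := by omega
  have h1 : 5 + 5 * r ≠ 1 := by omega
  have h2 : 5 + 5 * r ≠ 2 := by omega
  have h3 : 5 + 5 * r ≠ 3 := by omega
  have h4 : 5 + 5 * r < 4 + 5 * nR Q := by omega
  have h5 : (5 + 5 * r - 4) % 5 = 1 := by omega
  have h6 : (5 + 5 * r - 4) / 5 = r := by omega
  simp only [PC_vec, h0, h1, h2, h3, h4, h5, h6, if_true, if_false, one_ne_zero]

lemma PC_vS (r : ℕ) (hr : r < nR Q) : PC_vec Q z (nS r) = (1, rval z r, 0) := by
  unfold nS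
  have h0 : 6 + 5 * r ≠ 0 := by omega
  have h1 : 6 + 5 * r ≠ 1 := by omega
  have h2 : 6 + 5 * r ≠ 2 := by omega
  have h3 : 6 + 5 * r ≠ 3 := by omega
  have h4 : 6 + 5 * r < 4 + 5 * nR Q := by omega
  have h5 : (6 + 5 * r - 4) % 5 = 2 := by omega
  have h6 : (6 + 5 * r - 4) / 5 = r := by omega
  have h7 : (2 : ℕ) ≠ 0 := by omega
  have h8 : (2 : ℕ) ≠ 1 := by omega
  simp only [PC_vec, h0, h1, h2, h3, h4, h5, h6, h7, h8, if_true, if_false]

lemma PC_vM (r : ℕ) (hr : r < nR Q) : PC_vec Q z (nM r) = (1, rval z r, 1) := by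
  unfold nM
  have h0 : 7 + 5 * r ≠ 0 := by omega
  have h1 : 7 + 5 * r ≠ 1 := by omega
  have h2 : 7 + 5 * r ≠ 2 := by omega
  have h3 : 7 + 5 * r ≠ 3 := by omega
  have h4 : 7 + 5 * r < 4 + 5 * nR Q := by omega
  have h5 : (7 + 5 * r - 4) % 5 = 3 := by omega
  have h6 : (7 + 5 * r - 4) / 5 = r := by omega
  have h7 : (3 : ℕ) ≠ 0 := by omega
  have h8 : (3 : ℕ) ≠ 1 := by omega
  have h9 : (3 : ℕ) ≠ 2 := by omega
  simp only [PC_vec, h0, h1, h2, h3, h4, h5, h6, h7, h8, h9, if_true, if_false]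

lemma PC_vD (r : ℕ) (hr : r < nR Q) : PC_vec Q z (nD r) = (rval z r, rval z r, 1) := by
  unfold nD
  have h0 : 8 + 5 * r ≠ 0 := by omega
  have h1 : 8 + 5 * r ≠ 1 := by omega
  have h2 : 8 + 5 * r ≠ 2 := by omega
  have h3 : 8 + 5 * r ≠ 3 := by omega
  have h4 : 8 + 5 * r < 4 + 5 * nR Q := by omega
  have h5 : (8 + 5 * r - 4) % 5 = 4 := by omega
  have h6 : (8 + 5 * r - 4) / 5 = r := by omega
  have h7 : (4 : ℕ) ≠ 0 := by omega
  have h8 : (4 : ℕ) ≠ 1 := by omega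
  have h9 : (4 : ℕ) ≠ 2 := by omega
  have h10 : (4 : ℕ) ≠ 3 := by omega
  simp only [PC_vec, h0, h1, h2, h3, h4, h5, h6, h7, h8, h9, h10, if_true, if_false]

lemma PC_vK (k : ℕ) : PC_vec Q z (4 + 5 * nR Q + k) =
    (rval z (Q.ref k 1), rval z (Q.ref k 3), 1) := by
  have h0 : 4 + 5 * nR Q + k ≠ 0 := by omega
  have h1 : 4 + 5 * nR Q + k ≠ 1 := by omega
  have h2 : 4 + 5 * nR Q + k ≠ 2 := by omega
  have h3 : 4 + 5 * nR Q + k ≠ 3 := by omega
  have h4 : ¬ 4 + 5 * nR Q + k < 4 + 5 * nR Q := by omega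
  have h5 : 4 + 5 * nR Q + k - (4 + 5 * nR Q) = k := by omega
  simp only [PC_vec, h0, h1, h2, h3, h4, h5, if_false]

end

/-- the measuring gadget -/
lemma PC_meas (ε κ x α β : ℝ) (hκ : κ = 1 + ε) (hε : 0 < ε) (hα : 0 ≤ α) (hβ : 0 ≤ β)
    (hx : x * (α + κ * β) = α) (hp : 0 < 1 + ε * x) :
    area (0, 0) (x / (1 + ε * x), 0) (0, 2 * κ * (α + β)) = α ∧
      area (x / (1 + ε * x), 0) (1 / κ, 0) (0, 2 * κ * (α + β)) = β := by
  have hk : κ ≠ 0 := by rw [hκ]; positivity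
  have key : κ * (α + β) = (1 + ε * x) * (α + κ * β) := by
    rw [hκ] at hx ⊢
    linear_combination (-ε) * hx
  have e1 : x / (1 + ε * x) * (κ * (α + β)) = α := by
    rw [key, ← mul_assoc, div_mul_cancel₀ _ hp.ne', hx]
  constructor
  · unfold area
    have : ((x / (1 + ε * x), (0 : ℝ)).1 - ((0 : ℝ), (0 : ℝ)).1) *
        (((0 : ℝ), 2 * κ * (α + β)).2 - ((0 : ℝ), (0 : ℝ)).2) -
        (((0 : ℝ), 2 * κ * (α + β)).1 - ((0 : ℝ), (0 : ℝ)).1) *
        ((x / (1 + ε * x), (0 : ℝ)).2 - ((0 : ℝ), (0 : ℝ)).2) = 2 * α := by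
      simp only
      linear_combination 2 * e1
    rw [this, abs_of_nonneg (by linarith)]
    ring
  · unfold area
    have : ((1 / κ, (0 : ℝ)).1 - (x / (1 + ε * x), (0 : ℝ)).1) *
        (((0 : ℝ), 2 * κ * (α + β)).2 - (x / (1 + ε * x), (0 : ℝ)).2) -
        (((0 : ℝ), 2 * κ * (α + β)).1 - (x / (1 + ε * x), (0 : ℝ)).1) *
        ((1 / κ, (0 : ℝ)).2 - (x / (1 + ε * x), (0 : ℝ)).2) = 2 * β := by
      simp only
      have e2 : 1 / κ * (κ * (α + β)) = α + β := by field_simp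
      linear_combination 2 * e2 - 2 * e1
    rw [this, abs_of_nonneg (by linarith)]
    ring

theorem PC : PC_stmt := by
  intro Q M hWF hM α β hαβ hK
  classical
  obtain ⟨K0, hK0⟩ := hK
  obtain ⟨K, hK1, hKK⟩ : ∃ K : ℝ, 1 ≤ K ∧ K0 ≤ K := ⟨max 1 K0, le_max_left _ _, le_max_right _ _⟩
  obtain ⟨ε, hεdef⟩ : ∃ ε : ℝ, ε = 1 / (4 * K) := ⟨_, rfl⟩
  have hε : 0 < ε := by rw [hεdef]; positivity
  have hεK : ε * K = 1 / 4 := by rw [hεdef]; field_simp
  have hε1 : ε ≤ 1 / 4 := by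
    have : ε * 1 ≤ ε * K := by gcongr
    linarith
  obtain ⟨z, hz, hE, hmeas⟩ := hK0 (1 + ε) (by linarith) (by linarith)
  have hrv : ∀ r < nR Q, |rval z r| ≤ K := by
    intro r hr
    match r, hr with
    | 0, _ => simp only [rval, abs_zero]; linarith
    | 1, _ => simp only [rval, abs_one]; linarith
    | v + 2, hr => exact (hz v (by unfold nR at hr; omega)).trans hKK
  have hb : ∀ r < nR Q, -(1 / 4) ≤ ε * rval z r ∧ ε * rval z r ≤ 1 / 4 := by
    intro r hr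
    have h1 := abs_le.1 (hrv r hr)
    constructor
    · have : ε * (-K) ≤ ε * rval z r := by gcongr; exact h1.1
      linarith
    · have : ε * rval z r ≤ ε * K := by gcongr; exact h1.2
      linarith
  obtain ⟨δ, hδdef⟩ : ∃ δ : ℝ, δ = ε * ε := ⟨_, rfl⟩
  have hδ : 0 < δ := by rw [hδdef]; positivity
  have hb' : ∀ r < nR Q, -(1 / 4) ≤ δ * rval z r ∧ δ * rval z r ≤ 1 / 4 := by
    intro r hr
    obtain ⟨h1, h2⟩ := hb r hr
    have e : δ * rval z r = ε * (ε * rval z r) := by rw [hδdef]; ring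
    rw [e]
    constructor <;> nlinarith
  have h0R : 0 < nR Q := by unfold nR; omega
  have h1R : 1 < nR Q := by unfold nR; omega
  -- the values of the linear form
  have l0 : PC_lam ε δ (PC_vec Q z 0) ≠ 0 := by
    rw [PC_v0]; simp [PC_lam]
  have l1 : PC_lam ε δ (PC_vec Q z 1) ≠ 0 := by
    rw [PC_v1]; simp [PC_lam, hε.ne']
  have l2 : PC_lam ε δ (PC_vec Q z 2) ≠ 0 := by
    rw [PC_v2]; simp [PC_lam, hδ.ne']
  have l3 : PC_lam ε δ (PC_vec Q z 3) ≠ 0 := by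
    rw [PC_v3]
    have : PC_lam ε δ (1, 1, 1) = ε + δ + 1 := by simp [PC_lam]
    rw [this]
    positivity
  have lN : ∀ r < nR Q, PC_lam ε δ (PC_vec Q z (nN r)) ≠ 0 := by
    intro r hr
    rw [PC_vN Q z r hr]
    have : PC_lam ε δ (0, rval z r, 1) = δ * rval z r + 1 := by simp [PC_lam]
    rw [this]
    have := (hb' r hr).1
    intro h
    linarith
  have lX : ∀ r < nR Q, PC_lam ε δ (PC_vec Q z (nX r)) ≠ 0 := by
    intro r hr
    rw [PC_vX Q z r hr]
    have : PC_lam ε δ (rval z r, 0, 1) = ε * rval z r + 1 := by simp [PC_lam]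
    rw [this]
    have := (hb r hr).1
    intro h
    linarith
  have lS : ∀ r < nR Q, PC_lam ε δ (PC_vec Q z (nS r)) ≠ 0 := by
    intro r hr
    rw [PC_vS Q z r hr]
    have : PC_lam ε δ (1, rval z r, 0) = ε * (1 + ε * rval z r) := by
      simp [PC_lam, hδdef]
      ring
    rw [this]
    have := (hb r hr).1
    apply mul_ne_zero hε.ne'
    intro h
    linarith
  have lM : ∀ r < nR Q, PC_lam ε δ (PC_vec Q z (nM r)) ≠ 0 := by
    intro r hr
    rw [PC_vM Q z r hr]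
    have : PC_lam ε δ (1, rval z r, 1) = ε + δ * rval z r + 1 := by simp [PC_lam]
    rw [this]
    have := (hb' r hr).1
    intro h
    linarith
  have lD : ∀ r < nR Q, PC_lam ε δ (PC_vec Q z (nD r)) ≠ 0 := by
    intro r hr
    rw [PC_vD Q z r hr]
    have : PC_lam ε δ (rval z r, rval z r, 1) = ε * rval z r + δ * rval z r + 1 := by
      simp [PC_lam]
    rw [this]
    have h1 := (hb' r hr).1
    have h2 := (hb r hr).1
    intro h
    linarith
  have lK : ∀ k < Q.m, PC_lam ε δ (PC_vec Q z (4 + 5 * nR Q + k)) ≠ 0 := by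
    intro k hk
    rw [PC_vK]
    have : PC_lam ε δ (rval z (Q.ref k 1), rval z (Q.ref k 3), 1) =
        ε * rval z (Q.ref k 1) + δ * rval z (Q.ref k 3) + 1 := by
      simp [PC_lam]
    rw [this]
    have h1 := (hb' _ (hWF k hk 3 (by norm_num))).1
    have h2 := (hb _ (hWF k hk 1 (by norm_num))).1
    intro h
    linarith
  -- the two facts about named points
  obtain ⟨P, hP⟩ : ∃ P : ℕ → Pt, ∀ n, P n = PC_aff ε δ (PC_vec Q z n) := ⟨_, fun _ => rfl⟩
  have hcol : ∀ a b c : ℕ, PC_lam ε δ (PC_vec Q z a) ≠ 0 → PC_lam ε δ (PC_vec Q z b) ≠ 0 →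
      PC_lam ε δ (PC_vec Q z c) ≠ 0 → PC_det (PC_vec Q z a) (PC_vec Q z b) (PC_vec Q z c) = 0 →
      dt (P a) (P b) (P c) = 0 := by
    intro a b c ha hb hc h
    rw [hP, hP, hP, PC_dt ε δ _ _ _ ha hb hc, h, zero_div]
  have hncol : ∀ a b c : ℕ, PC_lam ε δ (PC_vec Q z a) ≠ 0 → PC_lam ε δ (PC_vec Q z b) ≠ 0 →
      PC_lam ε δ (PC_vec Q z c) ≠ 0 → PC_det (PC_vec Q z a) (PC_vec Q z b) (PC_vec Q z c) ≠ 0 →
      dt (P a) (P b) (P c) ≠ 0 := by
    intro a b c ha hb hc h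
    rw [hP, hP, hP, PC_dt ε δ _ _ _ ha hb hc]
    exact div_ne_zero h (mul_ne_zero (mul_ne_zero ha hb) hc)
  have hne : ∀ a b : ℕ, PC_lam ε δ (PC_vec Q z a) ≠ 0 → PC_lam ε δ (PC_vec Q z b) ≠ 0 →
      ((PC_vec Q z a).1 * (PC_vec Q z b).2.1 - (PC_vec Q z a).2.1 * (PC_vec Q z b).1 ≠ 0 ∨
        (PC_vec Q z a).1 * (PC_vec Q z b).2.2 - (PC_vec Q z a).2.2 * (PC_vec Q z b).1 ≠ 0 ∨
        (PC_vec Q z a).2.1 * (PC_vec Q z b).2.2 - (PC_vec Q z a).2.2 * (PC_vec Q z b).2.1 ≠ 0) →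
      P a ≠ P b := by
    intro a b ha hb h
    rw [hP, hP]
    exact PC_ne ε δ _ _ ha hb h
  have n01 : P 0 ≠ P 1 := hne 0 1 l0 l1 (by simp [PC_v0, PC_v1])
  have n02 : P 0 ≠ P 2 := hne 0 2 l0 l2 (by simp [PC_v0, PC_v2])
  have n03 : P 0 ≠ P 3 := hne 0 3 l0 l3 (by simp [PC_v0, PC_v3])
  have n12 : P 1 ≠ P 2 := hne 1 2 l1 l2 (by simp [PC_v1, PC_v2])
  have n13 : P 1 ≠ P 3 := hne 1 3 l1 l3 (by simp [PC_v1, PC_v3])
  have d012 : dt (P 0) (P 1) (P 2) ≠ 0 :=
    hncol 0 1 2 l0 l1 l2 (by simp [PC_v0, PC_v1, PC_v2, PC_det])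
  have d013 : dt (P 0) (P 1) (P 3) ≠ 0 :=
    hncol 0 1 3 l0 l1 l3 (by simp [PC_v0, PC_v1, PC_v3, PC_det])
  have d023 : dt (P 0) (P 2) (P 3) ≠ 0 :=
    hncol 0 2 3 l0 l2 l3 (by simp [PC_v0, PC_v2, PC_v3, PC_det])
  have d123 : dt (P 1) (P 2) (P 3) ≠ 0 :=
    hncol 1 2 3 l1 l2 l3 (by simp [PC_v1, PC_v2, PC_v3, PC_det])
  refine ⟨P, fun g hg => ?_⟩
  rcases Nat.lt_or_ge g 11 with h11 | h11
  · rw [PS_item_base Q M g h11]
    interval_cases g
    · simpa [Give, baseIt] using n01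
    · simpa [Give, baseIt] using n02
    · simpa [Give, baseIt] using n03
    · simpa [Give, baseIt] using n12
    · simpa [Give, baseIt] using n13
    · simpa [Give, baseIt] using d012
    · simpa [Give, baseIt] using d013
    · simpa [Give, baseIt] using d023
    · simpa [Give, baseIt] using d123
    · have : dt (P 0) (P 1) (P (nN 0)) = 0 := by
        apply hcol 0 1 _ l0 l1 (lN 0 h0R)
        rw [PC_v0, PC_v1, PC_vN Q z 0 h0R]
        simp [PC_det, rval]
      simpa [Give, baseIt, n01] using this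
    · have : dt (P 1) (P 3) (P (nN 1)) = 0 := by
        apply hcol 1 3 _ l1 l3 (lN 1 h1R)
        rw [PC_v1, PC_v3, PC_vN Q z 1 h1R]
        simp [PC_det, rval]
      simpa [Give, baseIt, n13] using this
  rcases Nat.lt_or_ge g (11 + 13 * nR Q) with h13 | h13
  · obtain ⟨r, c, hr, hc, rfl⟩ : ∃ r c, r < nR Q ∧ c < 13 ∧ g = 11 + 13 * r + c :=
      ⟨(g - 11) / 13, (g - 11) % 13, by omega, by omega, by omega⟩
    rw [PS_item_blk Q M r c hr hc]
    have i1 : 11 + 13 * r + 12 = 23 + 13 * r := by omega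
    have nN2 : P 2 ≠ P (nN r) := hne 2 _ l2 (lN r hr) (by simp [PC_v2, PC_vN Q z r hr])
    have nX1 : P 1 ≠ P (nX r) := hne 1 _ l1 (lX r hr) (by simp [PC_v1, PC_vX Q z r hr])
    have nS2 : P 2 ≠ P (nS r) := hne 2 _ l2 (lS r hr) (by simp [PC_v2, PC_vS Q z r hr])
    have nX2 : ∀ r < nR Q, P 2 ≠ P (nX r) := fun r hr =>
      hne 2 _ l2 (lX r hr) (by simp [PC_v2, PC_vX Q z r hr])
    have nN1 : P 1 ≠ P (nN r) := hne 1 _ l1 (lN r hr) (by simp [PC_v1, PC_vN Q z r hr])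
    have nS0 : P 0 ≠ P (nS r) := hne 0 _ l0 (lS r hr) (by simp [PC_v0, PC_vS Q z r hr])
    interval_cases c
    · have : dt (P 0) (P 2) (P (nN r)) = 0 := by
        apply hcol 0 2 _ l0 l2 (lN r hr)
        rw [PC_v0, PC_v2, PC_vN Q z r hr]
        simp [PC_det]
      simpa [Give, blkIt, n02] using this
    · simpa [Give, blkIt] using nN2
    · have : dt (P 0) (P 1) (P (nX r)) = 0 := by
        apply hcol 0 1 _ l0 l1 (lX r hr)
        rw [PC_v0, PC_v1, PC_vX Q z r hr]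
        simp [PC_det]
      simpa [Give, blkIt, n01] using this
    · simpa [Give, blkIt] using nX1
    · have : dt (P 1) (P 2) (P (nS r)) = 0 := by
        apply hcol 1 2 _ l1 l2 (lS r hr)
        rw [PC_v1, PC_v2, PC_vS Q z r hr]
        simp [PC_det]
      simpa [Give, blkIt, n12] using this
    · simpa [Give, blkIt] using nS2
    · have : dt (P 2) (P (nX 1)) (P (nM r)) = 0 := by
        apply hcol 2 _ _ l2 (lX 1 h1R) (lM r hr)
        rw [PC_v2, PC_vX Q z 1 h1R, PC_vM Q z r hr]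
        simp [PC_det, rval]
      simpa [Give, blkIt, nX2 1 h1R] using this
    · have : dt (P 1) (P (nN r)) (P (nM r)) = 0 := by
        apply hcol 1 _ _ l1 (lN r hr) (lM r hr)
        rw [PC_v1, PC_vN Q z r hr, PC_vM Q z r hr]
        simp [PC_det]
      simpa [Give, blkIt, nN1] using this
    · have : dt (P 0) (P (nS r)) (P (nM r)) = 0 := by
        apply hcol 0 _ _ l0 (lS r hr) (lM r hr)
        rw [PC_v0, PC_vS Q z r hr, PC_vM Q z r hr]
        simp [PC_det]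
      simpa [Give, blkIt, nS0] using this
    · have : dt (P 2) (P (nX r)) (P (nD r)) = 0 := by
        apply hcol 2 _ _ l2 (lX r hr) (lD r hr)
        rw [PC_v2, PC_vX Q z r hr, PC_vD Q z r hr]
        simp [PC_det]
      simpa [Give, blkIt, nX2 r hr] using this
    · have : dt (P 1) (P (nN r)) (P (nD r)) = 0 := by
        apply hcol 1 _ _ l1 (lN r hr) (lD r hr)
        rw [PC_v1, PC_vN Q z r hr, PC_vD Q z r hr]
        simp [PC_det]
      simpa [Give, blkIt, nN1] using this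
    · have : dt (P 0) (P 3) (P (nD r)) = 0 := by
        apply hcol 0 3 _ l0 l3 (lD r hr)
        rw [PC_v0, PC_v3, PC_vD Q z r hr]
        simp [PC_det]
      simpa [Give, blkIt, n03] using this
    · by_cases hMr : M r
      · have hd : decide (M r) = true := by simpa using hMr
        rw [i1, hd]
        have hx := hmeas r hMr
        have hp : 0 < 1 + ε * rval z r := by
          have := (hb r hr).1
          linarith
        obtain ⟨a1, a2⟩ := PC_meas ε (1 + ε) (rval z r) (α (23 + 13 * r)) (β (23 + 13 * r)) rfl hε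
          (hαβ _).1 (hαβ _).2 hx hp
        have p0 : P (nX 0) = (0, 0) := by
          rw [hP, PC_vX Q z 0 h0R]
          simp [PC_aff, PC_lam, rval]
        have p1 : P (nX 1) = (1 / (1 + ε), 0) := by
          rw [hP, PC_vX Q z 1 h1R]
          have : PC_lam ε δ (rval z 1, 0, 1) = 1 + ε := by
            simp [PC_lam, rval]
            ring
          simp only [PC_aff, this]
          simp [rval]
        have pr : P (nX r) = (rval z r / (1 + ε * rval z r), 0) := by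
          rw [hP, PC_vX Q z r hr]
          have : PC_lam ε δ (rval z r, 0, 1) = 1 + ε * rval z r := by
            simp [PC_lam]
            ring
          simp only [PC_aff, this]
          simp
        rw [← p0, ← pr] at a1
        rw [← p1, ← pr] at a2
        simp only [Give, blkIt]
        norm_num
        exact ⟨_, _, a1, a2⟩
      · have hd : decide (M r) = false := by simpa using hMr
        rw [hd]
        simpa [Give, blkIt] using n01
  · obtain ⟨k, c, hk, hc, rfl⟩ : ∃ k c, k < Q.m ∧ c < 3 ∧ g = 11 + 13 * nR Q + 3 * k + c :=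
      ⟨(g - 11 - 13 * nR Q) / 3, (g - 11 - 13 * nR Q) % 3, by unfold nG at hg; omega, by omega,
        by omega⟩
    rw [PS_item_eq Q M k c hc]
    have w0 := hWF k hk 0 (by norm_num)
    have w1 := hWF k hk 1 (by norm_num)
    have w2 := hWF k hk 2 (by norm_num)
    have w3 := hWF k hk 3 (by norm_num)
    interval_cases c
    · have h1 : P 2 ≠ P (nX (Q.ref k 1)) :=
        hne 2 _ l2 (lX _ w1) (by simp [PC_v2, PC_vX Q z _ w1])
      have : dt (P 2) (P (nX (Q.ref k 1))) (P (4 + 5 * nR Q + k)) = 0 := by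
        apply hcol 2 _ _ l2 (lX _ w1) (lK k hk)
        rw [PC_v2, PC_vX Q z _ w1, PC_vK]
        simp [PC_det]
      simpa [Give, eqIt, h1] using this
    · have h1 : P 1 ≠ P (nN (Q.ref k 3)) :=
        hne 1 _ l1 (lN _ w3) (by simp [PC_v1, PC_vN Q z _ w3])
      have : dt (P 1) (P (nN (Q.ref k 3))) (P (4 + 5 * nR Q + k)) = 0 := by
        apply hcol 1 _ _ l1 (lN _ w3) (lK k hk)
        rw [PC_v1, PC_vN Q z _ w3, PC_vK]
        simp [PC_det]
      simpa [Give, eqIt, h1] using this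
    · have h1 : P (nS (Q.ref k 0)) ≠ P (nN (Q.ref k 2)) :=
        hne _ _ (lS _ w0) (lN _ w2) (by simp [PC_vS Q z _ w0, PC_vN Q z _ w2])
      have : dt (P (nS (Q.ref k 0))) (P (nN (Q.ref k 2))) (P (4 + 5 * nR Q + k)) = 0 := by
        apply hcol _ _ _ (lS _ w0) (lN _ w2) (lK k hk)
        rw [PC_vS Q z _ w0, PC_vN Q z _ w2, PC_vK]
        have hEk := hE k hk
        unfold E at hEk
        simp only [PC_det]
        linarith
      simpa [Give, eqIt, h1] using this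

end Pool.Agent.helper14.AU
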